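import Pool.Agent.N684.HS.E

/-! A clique inflation, with 19 vertices, of a graph with eight vertices: `χ = 7` but `had₂ = 6`. -/

set_option autoImplicit false

namespace N684.CY

open Finset

/-- adjacency masks of the graph with eight vertices -/
def mk8 : Fin 8 → ℕ := ![88, 176, 96, 193, 3, 134, 13, 42]

/-- two triangles `0, 3, 6` and `1, 5, 7`, the edge `37` and the paths `0, 4, 1` and `6, 2, 5` -/
def H : SimpleGraph (Fin 8) where
  Adj x y := (mk8 x).testBit (y : ℕ) = true
  symm := ⟨by decide +kernel⟩
  loopless := ⟨by decide +kernel⟩

instance : DecidableRel H.Adj := fun x y =>
  inferInstanceAs (Decidable ((mk8 x).testBit (y : ℕ) = true))

/-- the bag of each of the nineteen vertices -/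
def bag : Fin 19 → Fin 8 := ![0, 1, 1, 2, 2, 2, 2, 3, 3, 3, 3, 4, 4, 4, 4, 5, 5, 6, 7]

/-- the inflation of `H` with bags of sizes 1, 2, 4, 4, 4, 2, 1, 1 -/
def G : SimpleGraph (Fin 19) where
  Adj x y := x ≠ y ∧ (bag x = bag y ∨ H.Adj (bag x) (bag y))
  symm := ⟨fun _ _ h => ⟨h.1.symm, h.2.imp Eq.symm (fun e => e.symm)⟩⟩
  loopless := ⟨fun _ h => h.1 rfl⟩

lemma inf : N684.HS.Inf G H bag := fun _ _ => Iff.rfl

instance c7dec : DecidableRel (SimpleGraph.cycleGraph 7).Adj := fun x y =>
  decidable_of_iff (x - y = 1 ∨ y - x = 1) (SimpleGraph.cycleGraph_adj (n := 5)).symm

lemma c7_no_tri : ∀ i j k : Fin 7, (SimpleGraph.cycleGraph 7).Adj i j →
    (SimpleGraph.cycleGraph 7).Adj j k → (SimpleGraph.cycleGraph 7).Adj i k → False := by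
  decide +kernel

lemma lof_H : N684.HS.LOF H := by
  intro k hk
  refine ⟨fun e => ?_⟩
  have hc := Fintype.card_le_of_injective _ e.injective
  rw [Fintype.card_fin, Fintype.card_fin] at hc
  obtain rfl : k = 3 := by omega
  have e' : SimpleGraph.cycleGraph 7 ↪g H := e
  -- at most one vertex is missed
  have hmiss : ∀ a b : Fin 8, a ≠ b → (∀ i, e' i ≠ a) → (∀ i, e' i ≠ b) → False := by
    intro a b hab ha hb
    have h1 : (univ.image (fun i => e' i) : Finset (Fin 8)) ⊆ (univ.erase a).erase b := by
      intro x hx
      obtain ⟨i, -, rfl⟩ := mem_image.1 hx
      exact mem_erase.2 ⟨hb i, mem_erase.2 ⟨ha i, mem_univ _⟩⟩
    have h2 := card_le_card h1
    rw [card_image_of_injective _ e'.injective, card_univ, Fintype.card_fin,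
      card_erase_of_mem (mem_erase.2 ⟨hab.symm, mem_univ _⟩), card_erase_of_mem (mem_univ _),
      card_univ, Fintype.card_fin] at h2
    omega
  have htri : ∀ a b c : Fin 8, H.Adj a b → H.Adj b c → H.Adj a c → (∃ i, e' i = a) →
      (∃ i, e' i = b) → (∃ i, e' i = c) → False := by
    rintro a b c hab hbc hac ⟨i, rfl⟩ ⟨j, rfl⟩ ⟨l, rfl⟩
    exact c7_no_tri i j l (e'.map_rel_iff.1 hab) (e'.map_rel_iff.1 hbc) (e'.map_rel_iff.1 hac)
  have hall : (∀ a : Fin 8, (a = 0 ∨ a = 3 ∨ a = 6) → ∃ i, e' i = a) ∨
      (∀ a : Fin 8, (a = 1 ∨ a = 5 ∨ a = 7) → ∃ i, e' i = a) := by
    by_contra hno
    push Not at hno
    obtain ⟨⟨a, ha, ha'⟩, ⟨b, hb, hb'⟩⟩ := hno
    refine hmiss a b ?_ ha' hb'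
    intro hab
    rw [hab] at ha
    rcases ha with h | h | h <;> rcases hb with h' | h' | h' <;>
      exact absurd (h.symm.trans h') (by decide)
  rcases hall with h | h
  · exact htri 0 3 6 (by decide) (by decide) (by decide) (h 0 (by decide)) (h 3 (by decide))
      (h 6 (by decide))
  · exact htri 1 5 7 (by decide) (by decide) (by decide) (h 1 (by decide)) (h 5 (by decide))
      (h 7 (by decide))

lemma lof_G : N684.HS.LOF G := N684.HS.lof_inf G H bag inf lof_H

def nadj (a b : Fin 8) : Bool := !(decide (a = b)) && !(decide (H.Adj a b))

lemma alpha_H : ∀ a b c d : Fin 8,
    (nadj a b && nadj a c && nadj a d && nadj b c && nadj b d && nadj c d) = false := by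
  decide +kernel

lemma nadj_of (a b : Fin 8) (h : a ≠ b ∧ ¬ H.Adj a b) : nadj a b = true := by
  unfold nadj
  simp [h.1, h.2]

lemma not_col : ¬ G.Colorable 6 := by
  rintro ⟨c⟩
  obtain ⟨y, hy⟩ := Fintype.exists_lt_card_fiber_of_mul_lt_card (f := c) (n := 3) (by
    rw [Fintype.card_fin, Fintype.card_fin]; norm_num)
  obtain ⟨S, hS1, hS2⟩ := Finset.exists_subset_card_eq (Nat.succ_le_of_lt hy)
  have hst : ∀ u ∈ S, ∀ v ∈ S, u ≠ v → bag u ≠ bag v ∧ ¬ H.Adj (bag u) (bag v) := by
    intro u hu v hv huv
    have e1 : c u = y := (mem_filter.1 (hS1 hu)).2
    have e2 : c v = y := (mem_filter.1 (hS1 hv)).2
    constructor
    · intro h
      exact c.valid (v := u) (w := v) ⟨huv, Or.inl h⟩ (e1.trans e2.symm)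
    · intro h
      exact c.valid (v := u) (w := v) ⟨huv, Or.inr h⟩ (e1.trans e2.symm)
  obtain ⟨a, b, d, f, hab, had, haf, hbd, hbf, hdf, rfl⟩ := Finset.card_eq_four.1 hS2
  have ma : a ∈ ({a, b, d, f} : Finset (Fin 19)) := by simp
  have mb : b ∈ ({a, b, d, f} : Finset (Fin 19)) := by simp
  have md : d ∈ ({a, b, d, f} : Finset (Fin 19)) := by simp
  have mf : f ∈ ({a, b, d, f} : Finset (Fin 19)) := by simp
  have key := alpha_H (bag a) (bag b) (bag d) (bag f)
  rw [nadj_of _ _ (hst a ma b mb hab), nadj_of _ _ (hst a ma d md had),
    nadj_of _ _ (hst a ma f mf haf), nadj_of _ _ (hst b mb d md hbd),
    nadj_of _ _ (hst b mb f mf hbf), nadj_of _ _ (hst d md f mf hdf)] at key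
  exact absurd key (by decide)

/-- the nineteen types of branch sets: a bag, or two adjacent bags -/
def ty : Fin 19 → Fin 8 × Fin 8 := ![(0, 0), (1, 1), (2, 2), (3, 3), (4, 4), (5, 5), (6, 6), (7, 7), (0, 3), (0, 4), (0, 6), (1, 4), (1, 5), (1, 7), (2, 5), (2, 6), (3, 6), (3, 7), (5, 7)]

def tch (s t : Fin 19) : Bool :=
  decide ((ty s).1 = (ty t).1 ∨ H.Adj (ty s).1 (ty t).1) ||
  decide ((ty s).1 = (ty t).2 ∨ H.Adj (ty s).1 (ty t).2) ||
  decide ((ty s).2 = (ty t).1 ∨ H.Adj (ty s).2 (ty t).1) ||
  decide ((ty s).2 = (ty t).2 ∨ H.Adj (ty s).2 (ty t).2)

/-- the vertex `v` of `H` lies in the type `t` -/
def inn (v : Fin 8) (t : Fin 19) : Prop := (ty t).1 = v ∨ (ty t).2 = v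

instance (v : Fin 8) (t : Fin 19) : Decidable (inn v t) := by unfold inn; infer_instance

lemma ex_ty : ∀ a b : Fin 8, (a = b ∨ H.Adj a b) →
    ∃ t : Fin 19, ty t = (a, b) ∨ ty t = (b, a) := by
  decide +kernel

lemma arith (n : Fin 19 → ℕ) (hsum : n 0 + n 1 + n 2 + n 3 + n 4 + n 5 + n 6 + n 7 + n 8 + n 9 + n 10 + n 11 + n 12 + n 13 + n 14 + n 15 + n 16 + n 17 + n 18 = 7)
    (c0 : n 0 + n 8 + n 9 + n 10 ≤ 1)
    (c1 : n 1 + n 11 + n 12 + n 13 ≤ 2)
    (c2 : n 2 + n 14 + n 15 ≤ 4)
    (c3 : n 3 + n 8 + n 16 + n 17 ≤ 4)
    (c4 : n 4 + n 9 + n 11 ≤ 4)
    (c5 : n 5 + n 12 + n 14 + n 18 ≤ 2)
    (c6 : n 6 + n 10 + n 15 + n 16 ≤ 1)
    (c7 : n 7 + n 13 + n 17 + n 18 ≤ 1)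
    (hnt : ∀ s t : Fin 19, tch s t = false → n s = 0 ∨ n t = 0) : False := by
  rcases hnt 2 4 (by decide +kernel) with h | h
  · rcases hnt 3 4 (by decide +kernel) with h | h
    · rcases hnt 4 6 (by decide +kernel) with h | h
      · rcases hnt 0 1 (by decide +kernel) with h | h
        · rcases hnt 1 6 (by decide +kernel) with h | h
          · rcases hnt 6 11 (by decide +kernel) with h | h
            · rcases hnt 11 15 (by decide +kernel) with h | h
              · omega
              · rcases hnt 11 16 (by decide +kernel) with h | h
                · omega
                · omega
            · omega
          · rcases hnt 1 10 (by decide +kernel) with h | h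
            · rcases hnt 11 15 (by decide +kernel) with h | h
              · omega
              · rcases hnt 11 16 (by decide +kernel) with h | h
                · omega
                · omega
            · rcases hnt 1 8 (by decide +kernel) with h | h
              · rcases hnt 11 15 (by decide +kernel) with h | h
                · omega
                · rcases hnt 11 16 (by decide +kernel) with h | h
                  · omega
                  · omega
              · rcases hnt 5 9 (by decide +kernel) with h | h
                · rcases hnt 9 14 (by decide +kernel) with h | h
                  · omega
                  · omega
                · omega
        · rcases hnt 6 11 (by decide +kernel) with h | h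
          · rcases hnt 11 15 (by decide +kernel) with h | h
            · omega
            · rcases hnt 11 16 (by decide +kernel) with h | h
              · omega
              · omega
          · omega
      · rcases hnt 4 5 (by decide +kernel) with h | h
        · rcases hnt 0 1 (by decide +kernel) with h | h
          · rcases hnt 1 10 (by decide +kernel) with h | h
            · rcases hnt 11 15 (by decide +kernel) with h | h
              · omega
              · rcases hnt 11 16 (by decide +kernel) with h | h
                · omega
                · omega
            · rcases hnt 1 8 (by decide +kernel) with h | h
              · rcases hnt 11 15 (by decide +kernel) with h | h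
                · omega
                · rcases hnt 11 16 (by decide +kernel) with h | h
                  · omega
                  · omega
              · rcases hnt 5 9 (by decide +kernel) with h | h
                · rcases hnt 9 14 (by decide +kernel) with h | h
                  · omega
                  · omega
                · omega
          · rcases hnt 11 15 (by decide +kernel) with h | h
            · omega
            · rcases hnt 11 16 (by decide +kernel) with h | h
              · omega
              · omega
        · rcases hnt 4 14 (by decide +kernel) with h | h
          · rcases hnt 0 14 (by decide +kernel) with h | h
            · rcases hnt 8 14 (by decide +kernel) with h | h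
              · rcases hnt 9 14 (by decide +kernel) with h | h
                · omega
                · omega
              · omega
            · omega
          · rcases hnt 4 7 (by decide +kernel) with h | h
            · omega
            · rcases hnt 4 15 (by decide +kernel) with h | h
              · omega
              · rcases hnt 4 16 (by decide +kernel) with h | h
                · omega
                · rcases hnt 4 18 (by decide +kernel) with h | h
                  · omega
                  · rcases hnt 4 17 (by decide +kernel) with h | h
                    · omega
                    · rcases hnt 0 1 (by decide +kernel) with h | h
                      · rcases hnt 1 10 (by decide +kernel) with h | h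
                        · rcases hnt 10 12 (by decide +kernel) with h | h
                          · rcases hnt 8 12 (by decide +kernel) with h | h
                            · omega
                            · omega
                          · omega
                        · rcases hnt 1 8 (by decide +kernel) with h | h
                          · rcases hnt 8 12 (by decide +kernel) with h | h
                            · omega
                            · omega
                          · omega
                      · rcases hnt 0 12 (by decide +kernel) with h | h
                        · rcases hnt 10 12 (by decide +kernel) with h | h
                          · rcases hnt 8 12 (by decide +kernel) with h | h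
                            · omega
                            · omega
                          · omega
                        · omega
    · rcases hnt 1 3 (by decide +kernel) with h | h
      · rcases hnt 3 11 (by decide +kernel) with h | h
        · rcases hnt 6 11 (by decide +kernel) with h | h
          · rcases hnt 11 15 (by decide +kernel) with h | h
            · omega
            · rcases hnt 11 16 (by decide +kernel) with h | h
              · omega
              · omega
          · omega
        · rcases hnt 3 5 (by decide +kernel) with h | h
          · omega
          · rcases hnt 3 12 (by decide +kernel) with h | h
            · omega
            · rcases hnt 3 14 (by decide +kernel) with h | h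
              · omega
              · rcases hnt 0 7 (by decide +kernel) with h | h
                · rcases hnt 7 9 (by decide +kernel) with h | h
                  · rcases hnt 9 18 (by decide +kernel) with h | h
                    · omega
                    · rcases hnt 6 13 (by decide +kernel) with h | h
                      · rcases hnt 13 15 (by decide +kernel) with h | h
                        · omega
                        · omega
                      · omega
                  · omega
                · rcases hnt 0 13 (by decide +kernel) with h | h
                  · rcases hnt 9 18 (by decide +kernel) with h | h
                    · omega
                    · rcases hnt 6 13 (by decide +kernel) with h | h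
                      · rcases hnt 13 15 (by decide +kernel) with h | h
                        · omega
                        · omega
                      · omega
                  · rcases hnt 0 18 (by decide +kernel) with h | h
                    · rcases hnt 9 18 (by decide +kernel) with h | h
                      · omega
                      · omega
                    · omega
      · rcases hnt 0 1 (by decide +kernel) with h | h
        · rcases hnt 1 6 (by decide +kernel) with h | h
          · rcases hnt 6 11 (by decide +kernel) with h | h
            · rcases hnt 11 15 (by decide +kernel) with h | h
              · omega
              · rcases hnt 11 16 (by decide +kernel) with h | h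
                · omega
                · omega
            · omega
          · rcases hnt 1 10 (by decide +kernel) with h | h
            · rcases hnt 11 15 (by decide +kernel) with h | h
              · omega
              · rcases hnt 11 16 (by decide +kernel) with h | h
                · omega
                · omega
            · rcases hnt 1 8 (by decide +kernel) with h | h
              · rcases hnt 11 15 (by decide +kernel) with h | h
                · omega
                · rcases hnt 11 16 (by decide +kernel) with h | h
                  · omega
                  · omega
              · rcases hnt 5 9 (by decide +kernel) with h | h
                · rcases hnt 9 14 (by decide +kernel) with h | h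
                  · omega
                  · omega
                · omega
        · rcases hnt 6 11 (by decide +kernel) with h | h
          · rcases hnt 11 15 (by decide +kernel) with h | h
            · omega
            · rcases hnt 11 16 (by decide +kernel) with h | h
              · omega
              · omega
          · omega
  · rcases hnt 2 3 (by decide +kernel) with h | h
    · rcases hnt 1 3 (by decide +kernel) with h | h
      · rcases hnt 3 11 (by decide +kernel) with h | h
        · rcases hnt 6 11 (by decide +kernel) with h | h
          · rcases hnt 11 15 (by decide +kernel) with h | h
            · omega
            · rcases hnt 11 16 (by decide +kernel) with h | h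
              · omega
              · omega
          · omega
        · rcases hnt 3 5 (by decide +kernel) with h | h
          · omega
          · rcases hnt 3 12 (by decide +kernel) with h | h
            · omega
            · rcases hnt 3 14 (by decide +kernel) with h | h
              · omega
              · rcases hnt 0 7 (by decide +kernel) with h | h
                · rcases hnt 7 9 (by decide +kernel) with h | h
                  · rcases hnt 9 18 (by decide +kernel) with h | h
                    · omega
                    · rcases hnt 6 13 (by decide +kernel) with h | h
                      · rcases hnt 13 15 (by decide +kernel) with h | h
                        · omega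
                        · omega
                      · omega
                  · omega
                · rcases hnt 0 13 (by decide +kernel) with h | h
                  · rcases hnt 9 18 (by decide +kernel) with h | h
                    · omega
                    · rcases hnt 6 13 (by decide +kernel) with h | h
                      · rcases hnt 13 15 (by decide +kernel) with h | h
                        · omega
                        · omega
                      · omega
                  · rcases hnt 0 18 (by decide +kernel) with h | h
                    · rcases hnt 9 18 (by decide +kernel) with h | h
                      · omega
                      · omega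
                    · omega
      · rcases hnt 0 1 (by decide +kernel) with h | h
        · rcases hnt 1 6 (by decide +kernel) with h | h
          · rcases hnt 6 11 (by decide +kernel) with h | h
            · rcases hnt 11 15 (by decide +kernel) with h | h
              · omega
              · rcases hnt 11 16 (by decide +kernel) with h | h
                · omega
                · omega
            · omega
          · rcases hnt 1 10 (by decide +kernel) with h | h
            · rcases hnt 11 15 (by decide +kernel) with h | h
              · omega
              · rcases hnt 11 16 (by decide +kernel) with h | h
                · omega
                · omega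
            · rcases hnt 1 8 (by decide +kernel) with h | h
              · rcases hnt 11 15 (by decide +kernel) with h | h
                · omega
                · rcases hnt 11 16 (by decide +kernel) with h | h
                  · omega
                  · omega
              · rcases hnt 5 9 (by decide +kernel) with h | h
                · rcases hnt 9 14 (by decide +kernel) with h | h
                  · omega
                  · omega
                · omega
        · rcases hnt 6 11 (by decide +kernel) with h | h
          · rcases hnt 11 15 (by decide +kernel) with h | h
            · omega
            · rcases hnt 11 16 (by decide +kernel) with h | h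
              · omega
              · omega
          · omega
    · rcases hnt 0 2 (by decide +kernel) with h | h
      · rcases hnt 1 2 (by decide +kernel) with h | h
        · rcases hnt 2 11 (by decide +kernel) with h | h
          · rcases hnt 6 11 (by decide +kernel) with h | h
            · rcases hnt 11 15 (by decide +kernel) with h | h
              · omega
              · rcases hnt 11 16 (by decide +kernel) with h | h
                · omega
                · omega
            · omega
          · rcases hnt 2 7 (by decide +kernel) with h | h
            · omega
            · rcases hnt 2 8 (by decide +kernel) with h | h
              · omega
              · rcases hnt 2 9 (by decide +kernel) with h | h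
                · omega
                · rcases hnt 2 13 (by decide +kernel) with h | h
                  · omega
                  · rcases hnt 2 17 (by decide +kernel) with h | h
                    · omega
                    · rcases hnt 5 6 (by decide +kernel) with h | h
                      · rcases hnt 6 12 (by decide +kernel) with h | h
                        · rcases hnt 10 12 (by decide +kernel) with h | h
                          · rcases hnt 12 16 (by decide +kernel) with h | h
                            · omega
                            · omega
                          · omega
                        · omega
                      · rcases hnt 5 10 (by decide +kernel) with h | h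
                        · rcases hnt 10 12 (by decide +kernel) with h | h
                          · rcases hnt 12 16 (by decide +kernel) with h | h
                            · omega
                            · omega
                          · omega
                        · rcases hnt 5 16 (by decide +kernel) with h | h
                          · rcases hnt 12 16 (by decide +kernel) with h | h
                            · omega
                            · omega
                          · omega
        · rcases hnt 1 6 (by decide +kernel) with h | h
          · rcases hnt 6 11 (by decide +kernel) with h | h
            · rcases hnt 11 15 (by decide +kernel) with h | h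
              · omega
              · rcases hnt 11 16 (by decide +kernel) with h | h
                · omega
                · omega
            · omega
          · rcases hnt 1 10 (by decide +kernel) with h | h
            · rcases hnt 11 15 (by decide +kernel) with h | h
              · omega
              · rcases hnt 11 16 (by decide +kernel) with h | h
                · omega
                · omega
            · rcases hnt 1 8 (by decide +kernel) with h | h
              · rcases hnt 11 15 (by decide +kernel) with h | h
                · omega
                · rcases hnt 11 16 (by decide +kernel) with h | h
                  · omega
                  · omega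
              · rcases hnt 5 9 (by decide +kernel) with h | h
                · rcases hnt 9 14 (by decide +kernel) with h | h
                  · omega
                  · omega
                · omega
      · rcases hnt 0 1 (by decide +kernel) with h | h
        · rcases hnt 1 6 (by decide +kernel) with h | h
          · rcases hnt 6 11 (by decide +kernel) with h | h
            · rcases hnt 11 15 (by decide +kernel) with h | h
              · omega
              · rcases hnt 11 16 (by decide +kernel) with h | h
                · omega
                · omega
            · omega
          · rcases hnt 1 10 (by decide +kernel) with h | h
            · rcases hnt 11 15 (by decide +kernel) with h | h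
              · omega
              · rcases hnt 11 16 (by decide +kernel) with h | h
                · omega
                · omega
            · rcases hnt 1 8 (by decide +kernel) with h | h
              · rcases hnt 11 15 (by decide +kernel) with h | h
                · omega
                · rcases hnt 11 16 (by decide +kernel) with h | h
                  · omega
                  · omega
              · rcases hnt 5 9 (by decide +kernel) with h | h
                · rcases hnt 9 14 (by decide +kernel) with h | h
                  · omega
                  · omega
                · omega
        · rcases hnt 6 11 (by decide +kernel) with h | h
          · rcases hnt 11 15 (by decide +kernel) with h | h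
            · omega
            · rcases hnt 11 16 (by decide +kernel) with h | h
              · omega
              · omega
          · omega

end N684.CY
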