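import Pool.Agent.N684.CY.A

/-! The inflation with 19 vertices has no clique model with seven branch sets of at most two
vertices. -/

set_option autoImplicit false

namespace N684.CY

open Finset

def cnt (τ : Fin 7 → Fin 19) (t : Fin 19) : ℕ := (univ.filter (fun i => τ i = t)).card

lemma split_sum (τ : Fin 7 → Fin 19) (P : Fin 19 → Prop) [DecidablePred P] :
    (univ.filter (fun i => P (τ i))).card = ∑ t, if P t then cnt τ t else 0 := by
  rw [Finset.card_eq_sum_card_fiberwise (f := τ) (t := univ) (fun _ _ => by simp)]
  refine sum_congr rfl fun t _ => ?_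
  unfold cnt
  split_ifs with h
  · congr 1
    ext i
    simp only [mem_filter, mem_univ, true_and]
    constructor
    · exact fun h' => h'.2
    · intro h'
      exact ⟨by rw [h']; exact h, h'⟩
  · rw [card_eq_zero, Finset.filter_eq_empty_iff]
    intro i hi e
    rw [mem_filter, e] at hi
    exact h hi.2

lemma tch_self : ∀ s : Fin 19, tch s s = true := by decide +kernel

lemma tch_of (a b : Fin 8) (s t : Fin 19) (ha : inn a s) (hb : inn b t)
    (h : a = b ∨ H.Adj a b) : tch s t = true := by
  unfold tch
  simp only [Bool.or_eq_true, decide_eq_true_eq]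
  unfold inn at ha hb
  rcases ha with rfl | rfl <;> rcases hb with rfl | rfl
  · exact Or.inl (Or.inl (Or.inl h))
  · exact Or.inl (Or.inl (Or.inr h))
  · exact Or.inl (Or.inr h)
  · exact Or.inr h

lemma ty_of (X : Finset (Fin 19)) (h0 : X.Nonempty) (h1 : X.card ≤ 2)
    (h2 : ∀ u ∈ X, ∀ v ∈ X, u ≠ v → G.Adj u v) :
    ∃ t : Fin 19, (∀ v ∈ X, inn (bag v) t) ∧ ∀ b, inn b t → ∃ v ∈ X, bag v = b := by
  have hpos := h0.card_pos
  have hxy : ∃ x y, X = {x, y} ∧ (bag x = bag y ∨ H.Adj (bag x) (bag y)) := by
    have hcases : X.card = 1 ∨ X.card = 2 := by omega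
    rcases hcases with h | h
    · obtain ⟨x, rfl⟩ := Finset.card_eq_one.1 h
      exact ⟨x, x, by simp, Or.inl rfl⟩
    · obtain ⟨x, y, hne, rfl⟩ := Finset.card_eq_two.1 h
      exact ⟨x, y, rfl, (h2 x (by simp) y (by simp) hne).2⟩
  obtain ⟨x, y, rfl, hor⟩ := hxy
  obtain ⟨t, ht⟩ := ex_ty _ _ hor
  refine ⟨t, ?_, ?_⟩
  · intro v hv
    rw [mem_insert, mem_singleton] at hv
    unfold inn
    rcases ht with e | e <;> rcases hv with rfl | rfl <;> rw [e] <;> simp
  · intro b hb
    unfold inn at hb
    rcases ht with e | e
    · rw [e] at hb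
      rcases hb with rfl | rfl
      · exact ⟨x, by simp, rfl⟩
      · exact ⟨y, by simp, rfl⟩
    · rw [e] at hb
      rcases hb with rfl | rfl
      · exact ⟨y, by simp, rfl⟩
      · exact ⟨x, by simp, rfl⟩

/-- there are no seven branch sets with at most two vertices -/
theorem no_model (B : Fin 7 → Finset (Fin 19))
    (h1 : ∀ i, (B i).Nonempty ∧ (B i).card ≤ 2 ∧ ∀ u ∈ B i, ∀ v ∈ B i, u ≠ v → G.Adj u v)
    (h2 : ∀ i j, i ≠ j → Disjoint (B i) (B j) ∧ ∃ u ∈ B i, ∃ v ∈ B j, G.Adj u v) : False := by
  have hty := fun i => ty_of (B i) (h1 i).1 (h1 i).2.1 (h1 i).2.2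
  choose τ hτ1 hτ2 using hty
  have hcap : ∀ b : Fin 8, (univ.filter (fun i => inn b (τ i))).card ≤
      (univ.filter (fun v => bag v = b)).card := by
    intro b
    have hch : ∀ i : Fin 7, ∃ v : Fin 19, inn b (τ i) → v ∈ B i ∧ bag v = b := by
      intro i
      by_cases h : inn b (τ i)
      · obtain ⟨v, hv1, hv2⟩ := hτ2 i b h
        exact ⟨v, fun _ => ⟨hv1, hv2⟩⟩
      · exact ⟨0, fun h' => absurd h' h⟩
    choose g hg using hch
    refine Finset.card_le_card_of_injOn g ?_ ?_
    · intro i hi
      have hi' : inn b (τ i) := by simpa using hi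
      simpa using (hg i hi').2
    · intro i hi j hj hij
      have hi' : inn b (τ i) := by simpa using hi
      have hj' : inn b (τ j) := by simpa using hj
      by_contra hne
      have h3 := (h2 i j hne).1
      rw [Finset.disjoint_left] at h3
      apply h3 (hg i hi').1
      rw [hij]
      exact (hg j hj').1
  have hnt : ∀ s t : Fin 19, tch s t = false → cnt τ s = 0 ∨ cnt τ t = 0 := by
    intro s t hst
    by_contra hno
    push Not at hno
    obtain ⟨hs, ht⟩ := hno
    unfold cnt at hs ht
    obtain ⟨i, hi⟩ := Finset.card_pos.1 (Nat.pos_of_ne_zero hs)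
    obtain ⟨j, hj⟩ := Finset.card_pos.1 (Nat.pos_of_ne_zero ht)
    have hi' : τ i = s := (mem_filter.1 hi).2
    have hj' : τ j = t := (mem_filter.1 hj).2
    have hne : i ≠ j := by
      intro e
      rw [← hi', ← hj', e, tch_self] at hst
      exact absurd hst (by decide)
    obtain ⟨-, u, hu, v, hv, huv⟩ := h2 i j hne
    have := tch_of (bag u) (bag v) s t (hi' ▸ hτ1 i u hu) (hj' ▸ hτ1 j v hv) huv.2
    rw [hst] at this
    exact absurd this (by decide)
  have hsum : cnt τ 0 + cnt τ 1 + cnt τ 2 + cnt τ 3 + cnt τ 4 + cnt τ 5 + cnt τ 6 + cnt τ 7 + cnt τ 8 + cnt τ 9 + cnt τ 10 + cnt τ 11 + cnt τ 12 + cnt τ 13 + cnt τ 14 + cnt τ 15 + cnt τ 16 + cnt τ 17 + cnt τ 18 = 7 := by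
    have h := split_sum τ (fun _ => True)
    simp only [if_true, Finset.filter_true, card_univ, Fintype.card_fin] at h
    rw [show (univ : Finset (Fin 19)) = {0, 1, 2, 3, 4, 5, 6, 7, 8, 9, 10, 11, 12, 13, 14, 15, 16, 17, 18} from by decide +kernel,
      Finset.sum_insert (by decide), Finset.sum_insert (by decide), Finset.sum_insert (by decide),
      Finset.sum_insert (by decide), Finset.sum_insert (by decide), Finset.sum_insert (by decide),
      Finset.sum_insert (by decide), Finset.sum_insert (by decide), Finset.sum_insert (by decide),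
      Finset.sum_insert (by decide), Finset.sum_insert (by decide), Finset.sum_insert (by decide),
      Finset.sum_insert (by decide), Finset.sum_insert (by decide), Finset.sum_insert (by decide),
      Finset.sum_insert (by decide), Finset.sum_insert (by decide), Finset.sum_insert (by decide),
      Finset.sum_singleton] at h
    omega
  have c0 : cnt τ 0 + cnt τ 8 + cnt τ 9 + cnt τ 10 ≤ 1 := by
    have h := hcap 0
    rw [split_sum τ (inn 0), ← Finset.sum_filter,
      show (univ.filter (fun t => inn 0 t)) = ({0, 8, 9, 10} : Finset (Fin 19)) from by decide +kernel,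
      show (univ.filter (fun v => bag v = 0)).card = 1 from by decide +kernel,
      Finset.sum_insert (by decide), Finset.sum_insert (by decide), Finset.sum_insert (by decide),
      Finset.sum_singleton] at h
    omega
  have c1 : cnt τ 1 + cnt τ 11 + cnt τ 12 + cnt τ 13 ≤ 2 := by
    have h := hcap 1
    rw [split_sum τ (inn 1), ← Finset.sum_filter,
      show (univ.filter (fun t => inn 1 t)) = ({1, 11, 12, 13} : Finset (Fin 19)) from by decide +kernel,
      show (univ.filter (fun v => bag v = 1)).card = 2 from by decide +kernel,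
      Finset.sum_insert (by decide), Finset.sum_insert (by decide), Finset.sum_insert (by decide),
      Finset.sum_singleton] at h
    omega
  have c2 : cnt τ 2 + cnt τ 14 + cnt τ 15 ≤ 4 := by
    have h := hcap 2
    rw [split_sum τ (inn 2), ← Finset.sum_filter,
      show (univ.filter (fun t => inn 2 t)) = ({2, 14, 15} : Finset (Fin 19)) from by decide +kernel,
      show (univ.filter (fun v => bag v = 2)).card = 4 from by decide +kernel,
      Finset.sum_insert (by decide), Finset.sum_insert (by decide),
      Finset.sum_singleton] at h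
    omega
  have c3 : cnt τ 3 + cnt τ 8 + cnt τ 16 + cnt τ 17 ≤ 4 := by
    have h := hcap 3
    rw [split_sum τ (inn 3), ← Finset.sum_filter,
      show (univ.filter (fun t => inn 3 t)) = ({3, 8, 16, 17} : Finset (Fin 19)) from by decide +kernel,
      show (univ.filter (fun v => bag v = 3)).card = 4 from by decide +kernel,
      Finset.sum_insert (by decide), Finset.sum_insert (by decide), Finset.sum_insert (by decide),
      Finset.sum_singleton] at h
    omega
  have c4 : cnt τ 4 + cnt τ 9 + cnt τ 11 ≤ 4 := by
    have h := hcap 4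
    rw [split_sum τ (inn 4), ← Finset.sum_filter,
      show (univ.filter (fun t => inn 4 t)) = ({4, 9, 11} : Finset (Fin 19)) from by decide +kernel,
      show (univ.filter (fun v => bag v = 4)).card = 4 from by decide +kernel,
      Finset.sum_insert (by decide), Finset.sum_insert (by decide),
      Finset.sum_singleton] at h
    omega
  have c5 : cnt τ 5 + cnt τ 12 + cnt τ 14 + cnt τ 18 ≤ 2 := by
    have h := hcap 5
    rw [split_sum τ (inn 5), ← Finset.sum_filter,
      show (univ.filter (fun t => inn 5 t)) = ({5, 12, 14, 18} : Finset (Fin 19)) from by decide +kernel,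
      show (univ.filter (fun v => bag v = 5)).card = 2 from by decide +kernel,
      Finset.sum_insert (by decide), Finset.sum_insert (by decide), Finset.sum_insert (by decide),
      Finset.sum_singleton] at h
    omega
  have c6 : cnt τ 6 + cnt τ 10 + cnt τ 15 + cnt τ 16 ≤ 1 := by
    have h := hcap 6
    rw [split_sum τ (inn 6), ← Finset.sum_filter,
      show (univ.filter (fun t => inn 6 t)) = ({6, 10, 15, 16} : Finset (Fin 19)) from by decide +kernel,
      show (univ.filter (fun v => bag v = 6)).card = 1 from by decide +kernel,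
      Finset.sum_insert (by decide), Finset.sum_insert (by decide), Finset.sum_insert (by decide),
      Finset.sum_singleton] at h
    omega
  have c7 : cnt τ 7 + cnt τ 13 + cnt τ 17 + cnt τ 18 ≤ 1 := by
    have h := hcap 7
    rw [split_sum τ (inn 7), ← Finset.sum_filter,
      show (univ.filter (fun t => inn 7 t)) = ({7, 13, 17, 18} : Finset (Fin 19)) from by decide +kernel,
      show (univ.filter (fun v => bag v = 7)).card = 1 from by decide +kernel,
      Finset.sum_insert (by decide), Finset.sum_insert (by decide), Finset.sum_insert (by decide),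
      Finset.sum_singleton] at h
    omega
  exact arith (cnt τ) hsum c0 c1 c2 c3 c4 c5 c6 c7 hnt

end N684.CY
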